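import Pool.Agent.H20.CD

namespace Pool.Agent.Results.MP_68720f_al.NotAdmissible

open Pool.Agent.H20.CD

theorem result : ∃ (F : Type) (_ : Field F) (_ : Infinite F) (α : F) (γ : ℕ → F) (k : ℕ),
    4 ≤ k + 1 ∧ 1 + 4 * α ≠ 0 ∧ (∀ i, γ i ≠ 0) ∧ IsSimpleRing (A α γ k) ∧
    ∃ (B : Type) (_ : NonUnitalNonAssocRing B) (_ : Module F B) (_ : IsScalarTower F B B)
      (_ : SMulCommClass F B B), (∀ x y : B, x * y = -(y * x)) ∧
      (∀ f, IsId F (A α γ k) f → IsId F B f) ∧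
      ∃ T : Finset B, ¬ Nilp (NonUnitalAlgebra.adjoin F (T : Set B)) := main

end Pool.Agent.Results.MP_68720f_al.NotAdmissible
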